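import Pool.Agent.H20.S3.Cap4
import Pool.Agent.H27.OP.Meas

set_option autoImplicit false
set_option linter.unusedSectionVars false

/-!
# Odd letters: reduction to cycles which involve fewer than `r` variables

`odd_letters` : if the homology vanishes at the bidegrees `(p, m + d)` and `(p + 1, m + d - 1)`, and
if every cycle of bidegree `(p + r, m + d)` which is a weight vector involving fewer than `r`
variables is a boundary, then every cycle of bidegree `(p + r, m + d)` is a boundary.
-/

open MvPolynomial

namespace Pool.Agent.H20.S3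

open Pool.Agent.H27.OP

variable {σ k : Type*} [Fintype σ] [Field k]
variable {F : Type*} [AddCommGroup F] [Module k F] {d : ℕ}
variable {S : Fk σ k (Module.End k F) d} (A : Gr S)
variable {XF : Type*} [AddCommGroup XF] [Module k XF] (Y : Xt S XF)

/-- the measure goes down -/
lemma meas_shift [DecidableEq σ] (v w : σ → ℕ) {x y : σ} (hxy : x ≠ y) (hy : w y ≠ 0) :
    ∑ z, v z * (if z = x then w z + 1 else if z = y then w z - 1 else w z) + v y
      = ∑ z, v z * w z + v x := by
  have h2 : ∀ z ∈ (Finset.univ : Finset σ),
      v z * (if z = x then w z + 1 else if z = y then w z - 1 else w z)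
        + (if z = y then v z else 0) = v z * w z + (if z = x then v z else 0) := by
    intro z _
    by_cases h1 : z = x
    · subst h1
      rw [if_pos rfl, if_pos rfl, if_neg hxy]
      ring
    · rw [if_neg h1, if_neg h1]
      by_cases h2 : z = y
      · subst h2
        rw [if_pos rfl, if_pos rfl]
        obtain ⟨u, hu⟩ : ∃ u, w z = u + 1 := ⟨w z - 1, by omega⟩
        rw [hu, Nat.add_sub_cancel]
        ring
      · rw [if_neg h2, if_neg h2]
  have h3 := Finset.sum_congr rfl h2
  rw [Finset.sum_add_distrib, Finset.sum_add_distrib, Finset.sum_ite_eq',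
    Finset.sum_ite_eq'] at h3
  simpa using h3

include A Y in
theorem odd_letters [CharZero k] [LinearOrder σ] (v : σ → ℕ) (hv : StrictMono v) {e p r m : ℕ}
    (hd : d = e + 1) (hr : 1 ≤ r)
    (hex : ∀ w ∈ A.G p (m + d), S.del w = 0 → w ∈ LinearMap.range S.del)
    (hex' : ∀ w ∈ A.G (p + 1) (m + e), S.del w = 0 → w ∈ LinearMap.range S.del)
    (hbase : ∀ κ ∈ A.G (p + r) (m + d), S.del κ = 0 → ∀ w : σ → ℕ,
      (∀ x, S.D (X x) x κ = (w x : k) • κ) → (Finset.univ.filter fun x => w x ≠ 0).card < r →
      κ ∈ LinearMap.range S.del) :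
    ∀ κ ∈ A.G (p + r) (m + d), S.del κ = 0 → κ ∈ LinearMap.range S.del := by
  classical
  have hX : ∀ x : σ, (X x : MvPolynomial σ k).IsHomogeneous 1 := fun x => isHomogeneous_X _ _
  have key : ∀ (N : ℕ) (κ : F) (w : σ → ℕ), κ ∈ A.G (p + r) (m + d) → S.del κ = 0 →
      (∀ x, S.D (X x) x κ = (w x : k) • κ) → ∑ x, v x * w x = N → κ ∈ LinearMap.range S.del := by
    intro N
    induction N using Nat.strong_induction_on with
    | _ N ih =>
      intro κ w hκ hz hw hN
      set s : Finset σ := Finset.univ.filter fun x => w x ≠ 0 with hs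
      rcases Nat.lt_or_ge s.card r with hlt | hcard
      · exact hbase κ hκ hz w hw hlt
      · obtain ⟨t, hts, htc⟩ := Finset.exists_subset_card_eq hcard
        set Z : List σ := t.sort (· ≤ ·) with hZ
        have hZn : Z.Nodup := Finset.sort_nodup _ _
        have hZl : Z.length = r := by rw [hZ, Finset.length_sort, htc]
        have hZs : Z.Pairwise (· < ·) := by
          have := Finset.sortedLT_sort t
          exact this.pairwise
        have hZm : ∀ z ∈ Z, w z ≠ 0 := by
          intro z hz
          have h1 : z ∈ t := (Finset.mem_sort _).mp hz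
          exact (Finset.mem_filter.mp (hts h1)).2
        have hZ0 : Z ≠ [] := by
          rw [← List.length_pos_iff_ne_nil]
          omega
        have hW : ∀ x y : σ, ∀ w ∈ LinearMap.range S.del, S.D (X x) y w ∈ LinearMap.range S.del :=
          fun x y w hw => D_range (hX x) y hw
        have hp : Z.Pairwise fun x y => S.D (X x) y κ ∈ LinearMap.range S.del := by
          refine List.Pairwise.imp_of_mem ?_ hZs
          intro x y hx hy hlt
          have hxy : x ≠ y := ne_of_lt hlt
          have hwy := hZm y hy
          refine ih (∑ z, v z * (if z = x then w z + 1 else if z = y then w z - 1 else w z)) ?_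
            _ (fun z => if z = x then w z + 1 else if z = y then w z - 1 else w z)
            (D_mem A hκ (hX x) y) (D_cycle (hX x) y hz) (wt_shift hw hxy hwy) rfl
          rw [← hN]
          have h1 := meas_shift v w hxy hwy
          have h2 := hv hlt
          omega
        have hκ' : κ ∈ A.G (p + Z.length) (m + d) := by rw [hZl]; exact hκ
        obtain ⟨u, hu, hr⟩ := capelli4 A Y hd hW Z hZ0 hκ' hz hw hZn hp hZm hex hex'
        have h2 := add_mem hr hu
        rwa [sub_add_cancel] at h2
  intro κ hκ hz
  have h1 := wt_span A hκ hz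
  refine (Submodule.span_le.mpr ?_) h1
  rintro u ⟨⟨hu, huz⟩, w, hw⟩
  exact key _ u w hu huz hw rfl

end Pool.Agent.H20.S3
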