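import Pool.Agent.H27.OP.Cap

set_option autoImplicit false
set_option linter.unusedSectionVars false

/-!
# Odd letters: the Capelli type lemma with fewer letters

`capelliX` : if `κ` is a cycle which is a weight vector for `r` letters `Z` with nonzero weight, and
`D_{x,y} κ ∈ W` for the pairs of letters, and if the homology at bidegree `(a - r, K)` vanishes, then
`κ ∈ W + range del + Rl Z (θ ξ)` with `ξ` a combination of products of `r - 1` slots `[ν θ]` times
cycles of bidegree `(a - r + 1, K - 1)`.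
-/

open MvPolynomial

namespace Pool.Agent.H20.S3

open Pool.Agent.H27.OP

variable {σ k : Type*} [Fintype σ] [Field k]

section ring

variable {O : Type*} [Ring O] [Algebra k O] {d : ℕ} (S : Fx σ k O d)

/-- the even part of the extended differential -/
noncomputable def PP (S : Fx σ k O d) (e : ℕ) : O := ∑ ν ∈ Mo σ e, S.m (monomial ν 1) * S.db ν

lemma dx_eq (e : ℕ) : S.dx e = S.del - S.th * PP S e := rfl

lemma b_del (ν : σ →₀ ℕ) : S.b ν * S.del = S.del * S.b ν := by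
  rw [Fk.del_eq, Finset.mul_sum, Finset.sum_mul]
  refine Finset.sum_congr rfl fun μ _ => ?_
  rw [← mul_assoc, S.bm, mul_assoc, S.bJ, mul_assoc]

lemma PP_th (e : ℕ) : PP S e * S.th = S.th * PP S e := by
  unfold PP
  rw [Finset.mul_sum, Finset.sum_mul]
  refine Finset.sum_congr rfl fun ν _ => ?_
  rw [mul_assoc, S.dbth, ← mul_assoc, ← S.thm, mul_assoc]

lemma PP_del (e : ℕ) : PP S e * S.del = S.del * PP S e := by
  unfold PP
  rw [Finset.mul_sum, Finset.sum_mul]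
  refine Finset.sum_congr rfl fun ν _ => ?_
  rw [mul_assoc, S.db_del, ← mul_assoc, ← S.del_m, mul_assoc]

lemma th_PP_th (e : ℕ) : S.th * PP S e * S.th = 0 := by
  rw [mul_assoc, PP_th, ← mul_assoc, S.thth, zero_mul]

lemma dx_dx [CharZero k] (e : ℕ) : S.dx e * S.dx e = 0 := by
  have h1 : S.th * PP S e * (S.th * PP S e) = 0 := by
    rw [← mul_assoc, th_PP_th, zero_mul]
  have h2 : S.del * (S.th * PP S e) = -(S.th * PP S e * S.del) := by
    rw [← mul_assoc, show S.del * S.th = -(S.th * S.del) by rw [S.th_del, neg_neg], neg_mul,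
      mul_assoc, ← PP_del, mul_assoc]
  rw [dx_eq, sub_mul, mul_sub, mul_sub, S.del_del, h1, h2]
  abel

lemma dx_th (e : ℕ) : S.dx e * S.th = -(S.th * S.del) := by
  rw [dx_eq, sub_mul, th_PP_th, sub_zero, S.th_del, neg_neg]

lemma db_Gz {e : ℕ} (hd : d = e + 1) (z : σ) {ν : σ →₀ ℕ} (hν : ν ∈ Mo σ e) :
    S.db ν * S.Gz e z = S.Gz e z * S.db ν
      + ∑ μ ∈ Mo σ d, coeff ν (pderiv z (monomial μ (1 : k))) • S.J μ := by
  unfold Fx.Gz
  rw [Finset.mul_sum, Finset.sum_mul, ← Finset.sum_add_distrib]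
  refine Finset.sum_congr rfl fun μ _ => ?_
  rw [← mul_assoc, S.db_Bb hν, add_mul, mul_assoc, mul_assoc, S.dbJ, smul_mul_assoc, one_mul]

lemma PP_Gz {e : ℕ} (hd : d = e + 1) (z : σ) :
    PP S e * S.Gz e z = S.Gz e z * PP S e
      + ∑ μ ∈ Mo σ d, S.m (pderiv z (monomial μ 1)) * S.J μ := by
  have h1 : ∀ ν ∈ Mo σ e, S.m (monomial ν 1) * S.db ν * S.Gz e z
      = S.Gz e z * (S.m (monomial ν 1) * S.db ν)
        + ∑ μ ∈ Mo σ d, coeff ν (pderiv z (monomial μ (1 : k))) •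
          (S.m.toLinearMap (monomial ν 1) * S.J μ) := by
    intro ν hν
    have h2 : S.m (monomial ν (1 : k)) * S.Gz e z = S.Gz e z * S.m (monomial ν 1) := by
      have := S.m_GG e [z] (monomial ν (1 : k))
      simpa [Fx.Gl] using this
    rw [mul_assoc, db_Gz S hd z hν, mul_add, ← mul_assoc, h2, mul_assoc, Finset.mul_sum]
    congr 1
    refine Finset.sum_congr rfl fun μ _ => ?_
    rw [mul_smul_comm]
    rfl
  unfold PP
  rw [Finset.sum_mul, Finset.sum_congr rfl h1, Finset.sum_add_distrib, Finset.mul_sum,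
    Finset.sum_comm (s := Mo σ e)]
  congr 1
  refine Finset.sum_congr rfl fun μ hμ => ?_
  have hh : (pderiv z (monomial μ (1 : k))).IsHomogeneous e := by
    have := (isHomogeneous_monomial (1 : k) (mem_Mo.mp hμ)).pderiv (i := z)
    rwa [hd, Nat.add_sub_cancel] at this
  have := sum_coeff S.m.toLinearMap hh
  simp only [← smul_mul_assoc]
  rw [← Finset.sum_mul, this]
  rfl

/-- `D_{τ,z}` anticommutes with the extended differential -/
lemma dx_Tz {e : ℕ} (hd : d = e + 1) (z : σ) : S.dx e * S.Tz e z = -(S.Tz e z * S.dx e) := by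
  have a1 : S.del * (S.th * S.T z) = -(S.th * S.T z * S.del)
      + S.th * ∑ μ ∈ Mo σ d, S.m (pderiv z (monomial μ 1)) * S.J μ := by
    rw [← mul_assoc, show S.del * S.th = -(S.th * S.del) by rw [S.th_del, neg_neg], neg_mul,
      mul_assoc, mul_assoc, S.T_del, mul_add]
    abel
  have a2 : S.del * S.Gz e z = -(S.Gz e z * S.del) := by
    unfold Fx.Gz
    rw [Finset.mul_sum, Finset.sum_mul, ← Finset.sum_neg_distrib]
    refine Finset.sum_congr rfl fun μ _ => ?_
    rw [← mul_assoc, ← S.Bb_comm _ S.del (fun ν => b_del S ν), mul_assoc, S.del_J, mul_neg,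
      mul_assoc]
  have a3 : S.th * PP S e * (S.th * S.T z) = 0 := by
    rw [← mul_assoc, th_PP_th, zero_mul]
  have a4 : S.th * S.T z * (S.th * PP S e) = 0 := by
    rw [mul_assoc, ← mul_assoc (S.T z), ← S.thT, mul_assoc, ← mul_assoc, S.thth, zero_mul]
  have a5 : S.th * PP S e * S.Gz e z = -(S.Gz e z * (S.th * PP S e))
      + S.th * ∑ μ ∈ Mo σ d, S.m (pderiv z (monomial μ 1)) * S.J μ := by
    rw [mul_assoc, PP_Gz S hd, mul_add, ← mul_assoc, S.th_Gz, neg_mul, mul_assoc]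
  rw [S.Tz_eq, dx_eq, sub_mul, mul_add, mul_add, a1, a2, a3, a5, add_mul, mul_sub, mul_sub, a4]
  abel

lemma dx_TT {e : ℕ} (hd : d = e + 1) (Z : List σ) :
    S.dx e * S.Tl e Z = Fk.sg k Z.length • (S.Tl e Z * S.dx e) := by
  induction Z with
  | nil => simp [Fx.Tl, Fk.sg]
  | cons z Z ih =>
    rw [Fx.Tl, ← mul_assoc, dx_Tz S hd, neg_mul, mul_assoc, ih, List.length_cons, Fk.sg_succ,
      neg_smul, mul_smul_comm, mul_assoc]

/-- product of slots `[ν τ]` -/
noncomputable def bl (S : Fx σ k O d) : List (σ →₀ ℕ) → O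
  | [] => 1
  | ν :: L => S.b ν * bl S L

lemma bl_comm (L : List (σ →₀ ℕ)) {X : O} (h : ∀ ν, S.b ν * X = X * S.b ν) :
    bl S L * X = X * bl S L := by
  induction L with
  | nil => simp [bl]
  | cons ν L ih => rw [bl, mul_assoc, ih, ← mul_assoc, h, mul_assoc]

end ring

section

variable {F : Type*} [AddCommGroup F] [Module k F] {d : ℕ}
variable {S : Fk σ k (Module.End k F) d} (A : Gr S)
variable {XF : Type*} [AddCommGroup XF] [Module k XF] (Y : Xt S XF)

/-- products of `r` slots times elements of `W` -/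
def BB (Y : Xt S XF) (e r : ℕ) (W : Submodule k F) : Submodule k XF :=
  Submodule.span k {ξ | ∃ L : List (σ →₀ ℕ), (∀ ν ∈ L, ν ∈ Mo σ e) ∧ L.length = r ∧
    ∃ w ∈ W, ξ = bl Y.S' L (Y.j w)}

lemma BB_mono {e r : ℕ} {W W' : Submodule k F} (h : W ≤ W') : BB Y e r W ≤ BB Y e r W' := by
  refine Submodule.span_mono ?_
  rintro ξ ⟨L, h1, h2, w, hw, rfl⟩
  exact ⟨L, h1, h2, w, h hw, rfl⟩

lemma BB_b {e r : ℕ} {W : Submodule k F} {ν : σ →₀ ℕ} (hν : ν ∈ Mo σ e) {ξ : XF}
    (h : ξ ∈ BB Y e r W) : Y.S'.b ν ξ ∈ BB Y e (r + 1) W := by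
  have h1 : BB Y e r W ≤ (BB Y e (r + 1) W).comap (Y.S'.b ν) := by
    unfold BB
    rw [Submodule.span_le]
    rintro ξ ⟨L, h1, h2, w, hw, rfl⟩
    refine Submodule.subset_span ⟨ν :: L, ?_, by simp [h2], w, hw, by
      rw [bl, Module.End.mul_apply]⟩
    intro ν' hν'
    rcases List.mem_cons.mp hν' with h3 | h3
    · rw [h3]; exact hν
    · exact h1 ν' h3
  exact h1 h

lemma BB_Bb {e r : ℕ} {W : Submodule k F} (u : MvPolynomial σ k) {ξ : XF}
    (h : ξ ∈ BB Y e r W) : Y.S'.Bb e u ξ ∈ BB Y e (r + 1) W := by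
  rw [Fx.Bb_apply, LinearMap.sum_apply]
  refine Submodule.sum_mem _ fun ν hν => ?_
  rw [LinearMap.smul_apply]
  exact Submodule.smul_mem _ _ (BB_b Y hν h)

/-- operators which commute with the slots and come from `F` -/
lemma BB_op {e r : ℕ} {W W' : Submodule k F} (X' : Module.End k XF) (X : Module.End k F)
    (hb : ∀ ν, Y.S'.b ν * X' = X' * Y.S'.b ν) (hj : ∀ w, X' (Y.j w) = Y.j (X w))
    (hW : ∀ w ∈ W, X w ∈ W') {ξ : XF} (h : ξ ∈ BB Y e r W) : X' ξ ∈ BB Y e r W' := by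
  have h1 : BB Y e r W ≤ (BB Y e r W').comap X' := by
    unfold BB
    rw [Submodule.span_le]
    rintro ξ ⟨L, h1, h2, w, hw, rfl⟩
    refine Submodule.subset_span ⟨L, h1, h2, X w, hW w hw, ?_⟩
    have h3 := congrArg (fun f : Module.End k XF => f (Y.j w)) (bl_comm Y.S' L hb)
    simp only [Module.End.mul_apply] at h3
    rw [← h3, hj]
  exact h1 h

lemma j_del (w : F) : Y.S'.del (Y.j w) = Y.j (S.del w) := by
  rw [Fk.del_eq, Fk.del_eq, LinearMap.sum_apply, LinearMap.sum_apply, map_sum]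
  refine Finset.sum_congr rfl fun μ _ => ?_
  rw [Module.End.mul_apply, Module.End.mul_apply, Y.j_J, Y.j_m]

lemma dx_j (e : ℕ) (w : F) : Y.S'.dx e (Y.j w) = Y.j (S.del w) := by
  rw [dx_eq, LinearMap.sub_apply, j_del, Module.End.mul_apply]
  have h1 : PP Y.S' e (Y.j w) = 0 := by
    unfold PP
    rw [LinearMap.sum_apply]
    refine Finset.sum_eq_zero fun ν _ => ?_
    rw [Module.End.mul_apply, Y.j_db, map_zero]
  rw [h1, map_zero, sub_zero]

lemma BB_db {e r : ℕ} {W : Submodule k F} (ν : σ →₀ ℕ) {ξ : XF}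
    (h : ξ ∈ BB Y e r W) : Y.S'.db ν ξ ∈ BB Y e (r - 1) W := by
  have h0 : ∀ L : List (σ →₀ ℕ), (∀ ν ∈ L, ν ∈ Mo σ e) → ∀ w ∈ W,
      Y.S'.db ν (bl Y.S' L (Y.j w)) ∈ BB Y e (L.length - 1) W := by
    intro L
    induction L with
    | nil =>
      intro _ w _
      rw [bl, Module.End.one_apply, Y.j_db]
      exact zero_mem _
    | cons ν' L ih =>
      intro hL w hw
      have hL' : ∀ ν ∈ L, ν ∈ Mo σ e := fun ν hν => hL ν (List.mem_cons_of_mem _ hν)
      have hm : bl Y.S' L (Y.j w) ∈ BB Y e L.length W :=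
        Submodule.subset_span ⟨L, hL', rfl, w, hw, rfl⟩
      have ih' := ih hL' w hw
      have h3 : Y.S'.b ν' (Y.S'.db ν (bl Y.S' L (Y.j w))) ∈ BB Y e L.length W := by
        rcases L with _ | ⟨ν'', L⟩
        · rw [bl, Module.End.one_apply, Y.j_db, map_zero]
          exact zero_mem _
        · have := BB_b Y (hL ν' List.mem_cons_self) ih'
          rwa [List.length_cons, Nat.add_sub_cancel] at this
      rw [bl, Module.End.mul_apply, List.length_cons, Nat.add_sub_cancel]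
      by_cases h : ν = ν'
      · subst h
        have h2 := congrArg (fun f : Module.End k XF => f (bl Y.S' L (Y.j w))) (Y.S'.dbbs ν)
        simp only [Module.End.mul_apply, LinearMap.add_apply, Module.End.one_apply] at h2
        rw [h2]
        exact add_mem h3 hm
      · have h2 := congrArg (fun f : Module.End k XF => f (bl Y.S' L (Y.j w)))
          (Y.S'.dbb ν ν' h)
        simp only [Module.End.mul_apply] at h2
        rw [h2]
        exact h3
  have h1 : BB Y e r W ≤ (BB Y e (r - 1) W).comap (Y.S'.db ν) := by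
    nth_rewrite 1 [BB]
    rw [Submodule.span_le]
    rintro ξ ⟨L, h1, h2, w, hw, rfl⟩
    rw [← h2]
    exact h0 L h1 w hw
  exact h1 h

/-- Euler's formula in the slots -/
lemma BB_eul {e r : ℕ} {W : Submodule k F} {ξ : XF} (h : ξ ∈ BB Y e r W) :
    ∑ ν ∈ Mo σ e, Y.S'.b ν (Y.S'.db ν ξ) = (r : k) • ξ := by
  classical
  have h0 : ∀ L : List (σ →₀ ℕ), (∀ ν ∈ L, ν ∈ Mo σ e) → ∀ w ∈ W,
      ∑ ν ∈ Mo σ e, Y.S'.b ν (Y.S'.db ν (bl Y.S' L (Y.j w)))
        = (L.length : k) • bl Y.S' L (Y.j w) := by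
    intro L
    induction L with
    | nil =>
      intro _ w _
      rw [bl, Module.End.one_apply, List.length_nil, Nat.cast_zero, zero_smul]
      refine Finset.sum_eq_zero fun ν _ => ?_
      rw [Y.j_db, map_zero]
    | cons ν' L ih =>
      intro hL w hw
      have ih' := ih (fun ν hν => hL ν (List.mem_cons_of_mem _ hν)) w hw
      have hν' : ν' ∈ Mo σ e := hL ν' List.mem_cons_self
      rw [bl, Module.End.mul_apply]
      have h2 : ∀ ν ∈ Mo σ e, Y.S'.b ν (Y.S'.db ν (Y.S'.b ν' (bl Y.S' L (Y.j w))))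
          = Y.S'.b ν' (Y.S'.b ν (Y.S'.db ν (bl Y.S' L (Y.j w))))
            + if ν = ν' then Y.S'.b ν' (bl Y.S' L (Y.j w)) else 0 := by
        intro ν _
        have h4 := congrArg (fun f : Module.End k XF => f (Y.S'.db ν (bl Y.S' L (Y.j w))))
          (Y.S'.bb ν ν')
        simp only [Module.End.mul_apply] at h4
        by_cases h : ν = ν'
        · subst h
          have h3 := congrArg (fun f : Module.End k XF => f (bl Y.S' L (Y.j w))) (Y.S'.dbbs ν)
          simp only [Module.End.mul_apply, LinearMap.add_apply, Module.End.one_apply] at h3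
          rw [h3, map_add, if_pos rfl]
        · have h3 := congrArg (fun f : Module.End k XF => f (bl Y.S' L (Y.j w)))
            (Y.S'.dbb ν ν' h)
          simp only [Module.End.mul_apply] at h3
          rw [h3, if_neg h, add_zero, h4]
      rw [Finset.sum_congr rfl h2, Finset.sum_add_distrib, Finset.sum_ite_eq', if_pos hν',
        ← map_sum, ih', map_smul, List.length_cons, Nat.cast_succ, add_smul, one_smul]
  unfold BB at h
  induction h using Submodule.span_induction with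
  | mem ξ h =>
    obtain ⟨L, h1, rfl, w, hw, rfl⟩ := h
    exact h0 L h1 w hw
  | zero => simp
  | add x y _ _ hx hy =>
    simp only [map_add, Finset.sum_add_distrib, smul_add]
    rw [hx, hy]
  | smul c x _ hx =>
    simp only [map_smul]
    rw [← Finset.smul_sum, hx, smul_comm]

lemma BB_zero_iff {e : ℕ} {W : Submodule k F} {ξ : XF} (h : ξ ∈ BB Y e 0 W) :
    ∃ w ∈ W, ξ = Y.j w := by
  unfold BB at h
  induction h using Submodule.span_induction with
  | mem ξ h =>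
    obtain ⟨L, h1, h2, w, hw, rfl⟩ := h
    have : L = [] := List.length_eq_zero_iff.mp h2
    subst this
    exact ⟨w, hw, by rw [bl, Module.End.one_apply]⟩
  | zero => exact ⟨0, zero_mem _, (map_zero _).symm⟩
  | add x y _ _ hx hy =>
    obtain ⟨u, hu, rfl⟩ := hx
    obtain ⟨v, hv, rfl⟩ := hy
    exact ⟨u + v, add_mem hu hv, (map_add _ _ _).symm⟩
  | smul c x _ hx =>
    obtain ⟨u, hu, rfl⟩ := hx
    exact ⟨c • u, W.smul_mem _ hu, (map_smul _ _ _).symm⟩

lemma j_mem_BB {e : ℕ} {W : Submodule k F} {w : F} (hw : w ∈ W) : Y.j w ∈ BB Y e 0 W :=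
  Submodule.subset_span ⟨[], by simp, rfl, w, hw, by rw [bl, Module.End.one_apply]⟩

/-- the coefficients of a cycle are cycles -/
lemma BB_ker [CharZero k] {e : ℕ} {W : Submodule k F} : ∀ (r : ℕ) {ξ : XF}, ξ ∈ BB Y e r W →
    Y.S'.del ξ = 0 → ξ ∈ BB Y e r (W ⊓ LinearMap.ker S.del) := by
  intro r
  induction r with
  | zero =>
    intro ξ h hz
    obtain ⟨w, hw, rfl⟩ := BB_zero_iff Y h
    refine j_mem_BB Y (Submodule.mem_inf.mpr ⟨hw, ?_⟩)
    rw [LinearMap.mem_ker]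
    rw [j_del] at hz
    have := congrArg Y.pr hz
    rwa [Y.pr_j, map_zero] at this
  | succ r ih =>
    intro ξ h hz
    have h1 := BB_eul Y h
    have h2 : ((r + 1 : ℕ) : k) ≠ 0 := Nat.cast_ne_zero.mpr (Nat.succ_ne_zero r)
    have h3 : ξ = ((r + 1 : ℕ) : k)⁻¹ • ∑ ν ∈ Mo σ e, Y.S'.b ν (Y.S'.db ν ξ) := by
      rw [h1, smul_smul, inv_mul_cancel₀ h2, one_smul]
    rw [h3]
    refine Submodule.smul_mem _ _ (Submodule.sum_mem _ fun ν hν => BB_b Y hν (ih ?_ ?_))
    · have := BB_db Y ν h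
      rwa [Nat.add_sub_cancel] at this
    · have h4 := congrArg (fun f : Module.End k XF => f ξ) (Y.S'.db_del ν)
      simp only [Module.End.mul_apply] at h4
      rw [← h4, hz, map_zero]

/-- boundaries coefficient by coefficient -/
lemma BB_bdry {e r : ℕ} {W W' : Submodule k F} (h : ∀ w ∈ W, ∃ ζ ∈ W', S.del ζ = w) {ξ : XF}
    (hξ : ξ ∈ BB Y e r W) : ∃ ζ ∈ BB Y e r W', Y.S'.del ζ = ξ := by
  unfold BB at hξ
  induction hξ using Submodule.span_induction with
  | mem ξ hx =>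
    obtain ⟨L, h1, h2, w, hw, rfl⟩ := hx
    obtain ⟨ζ, hζ, rfl⟩ := h w hw
    refine ⟨bl Y.S' L (Y.j ζ), Submodule.subset_span ⟨L, h1, h2, ζ, hζ, rfl⟩, ?_⟩
    have h3 := congrArg (fun f : Module.End k XF => f (Y.j ζ))
      (bl_comm Y.S' L (X := Y.S'.del) (fun ν => b_del Y.S' ν))
    simp only [Module.End.mul_apply] at h3
    rw [← h3, j_del]
  | zero => exact ⟨0, zero_mem _, map_zero _⟩
  | add x y _ _ hx hy =>
    obtain ⟨u, hu, rfl⟩ := hx
    obtain ⟨v, hv, rfl⟩ := hy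
    exact ⟨u + v, add_mem hu hv, map_add _ _ _⟩
  | smul c x _ hx =>
    obtain ⟨u, hu, rfl⟩ := hx
    exact ⟨c • u, Submodule.smul_mem _ _ hu, map_smul _ _ _⟩

lemma BB_dth {e r : ℕ} {W : Submodule k F} {ξ : XF} (h : ξ ∈ BB Y e r W) : Y.S'.dth ξ = 0 := by
  have h1 : BB Y e r W ≤ LinearMap.ker Y.S'.dth := by
    unfold BB
    rw [Submodule.span_le]
    rintro ξ ⟨L, h1, h2, w, hw, rfl⟩
    rw [SetLike.mem_coe, LinearMap.mem_ker]
    have h3 := congrArg (fun f : Module.End k XF => f (Y.j w))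
      (bl_comm Y.S' L (X := Y.S'.dth) (fun ν => Y.S'.bdth ν))
    simp only [Module.End.mul_apply] at h3
    rw [← h3, Y.j_dth, map_zero]
  exact LinearMap.mem_ker.mp (h1 h)

lemma th_inj {ξ : XF} (h0 : Y.S'.dth ξ = 0) (h : Y.S'.th ξ = 0) : ξ = 0 := by
  have h1 := congrArg (fun f : Module.End k XF => f ξ) Y.S'.dd
  simp only [Module.End.mul_apply, LinearMap.sub_apply, Module.End.one_apply] at h1
  rw [h, map_zero, h0, map_zero, sub_zero] at h1
  exact h1.symm

include A in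
lemma BB_Gz {e r p m : ℕ} (z : σ) {ξ : XF} (h : ξ ∈ BB Y e r (A.G (p + 1) m)) :
    Y.S'.Gz e z ξ ∈ BB Y e (r + 1) (A.G p m) := by
  unfold Fx.Gz
  rw [LinearMap.sum_apply]
  refine Submodule.sum_mem _ fun μ _ => ?_
  rw [Module.End.mul_apply]
  exact BB_Bb Y _ (BB_op Y (Y.S'.J μ) (S.J μ) (fun ν => Y.S'.bJ ν μ) (fun w => Y.j_J μ w)
    (fun w hw => A.GJ hw) h)

include A in
lemma Gl_BB {e m : ℕ} (Z : List σ) : ∀ {p : ℕ} {η : F}, η ∈ A.G (p + Z.length) m →
    Y.S'.Gl e Z (Y.j η) ∈ BB Y e Z.length (A.G p m) := by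
  induction Z with
  | nil =>
    intro p η h
    rw [Fx.Gl, Module.End.one_apply]
    exact j_mem_BB Y h
  | cons z Z ih =>
    intro p η h
    rw [Fx.Gl, Module.End.mul_apply, List.length_cons]
    refine BB_Gz A Y z (ih ?_)
    have h1 : p + 1 + Z.length = p + (z :: Z).length := by rw [List.length_cons]; omega
    rw [h1]
    exact h

lemma Gl_del {e : ℕ} (Z : List σ) {η : F} (h : S.del η = 0) :
    Y.S'.del (Y.S'.Gl e Z (Y.j η)) = 0 := by
  induction Z with
  | nil => rw [Fx.Gl, Module.End.one_apply, j_del, h, map_zero]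
  | cons z Z ih =>
    have h1 : Y.S'.del * Y.S'.Gz e z = -(Y.S'.Gz e z * Y.S'.del) := by
      unfold Fx.Gz
      rw [Finset.mul_sum, Finset.sum_mul, ← Finset.sum_neg_distrib]
      refine Finset.sum_congr rfl fun μ _ => ?_
      rw [← mul_assoc, ← Y.S'.Bb_comm _ Y.S'.del (fun ν => b_del Y.S' ν), mul_assoc, Y.S'.del_J,
        mul_neg, mul_assoc]
    have h2 := congrArg (fun f : Module.End k XF => f (Y.S'.Gl e Z (Y.j η))) h1
    simp only [Module.End.mul_apply, LinearMap.neg_apply] at h2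
    rw [Fx.Gl, Module.End.mul_apply, h2, ih, map_zero, neg_zero]

include A in
/-- the form of `T_1 ⋯ T_r j κ` -/
lemma TT_form {e n : ℕ} (Z : List σ) : ∀ {p : ℕ} {κ : F}, κ ∈ A.G (p + Z.length) (n + 1) →
    ∃ ξ ∈ BB Y e (Z.length - 1) (A.G (p + 1) n), (Z = [] → ξ = 0) ∧
      Y.S'.Tl e Z (Y.j κ) = Y.S'.Gl e Z (Y.j κ) + Y.S'.th ξ := by
  induction Z with
  | nil =>
    intro p κ _
    refine ⟨0, zero_mem _, fun _ => rfl, ?_⟩
    rw [Fx.Tl, Fx.Gl, map_zero, add_zero]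
  | cons z Z ih =>
    intro p κ h
    have h1 : p + (z :: Z).length = p + 1 + Z.length := by rw [List.length_cons]; omega
    rw [h1] at h
    obtain ⟨ξ, hξ, hξ0, he⟩ := ih h
    refine ⟨Y.S'.Gl e Z (Y.j (S.T z κ)) - Y.S'.Gz e z ξ, ?_, by simp, ?_⟩
    · rw [List.length_cons, Nat.add_sub_cancel]
      refine sub_mem (Gl_BB A Y Z (A.GT h)) ?_
      rcases Z with _ | ⟨z', Z⟩
      · rw [hξ0 rfl, map_zero]
        exact zero_mem _
      · have := BB_Gz A Y z hξ
        rwa [List.length_cons, Nat.add_sub_cancel] at this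
    · rw [Fx.Tl, Module.End.mul_apply, he, Y.S'.Tz_eq, map_add, LinearMap.add_apply,
        LinearMap.add_apply]
      have e1 : (Y.S'.th * Y.S'.T z) (Y.S'.th ξ) = 0 := by
        have := congrArg (fun f : Module.End k XF => f ξ)
          (show Y.S'.th * Y.S'.T z * Y.S'.th = 0 by
            rw [mul_assoc, ← Y.S'.thT, ← mul_assoc, Y.S'.thth, zero_mul])
        simpa only [Module.End.mul_apply, LinearMap.zero_apply] using this
      have e2 : Y.S'.Gz e z (Y.S'.th ξ) = -(Y.S'.th (Y.S'.Gz e z ξ)) := by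
        have := congrArg (fun f : Module.End k XF => f ξ) (Y.S'.th_Gz e z)
        simp only [Module.End.mul_apply, LinearMap.neg_apply] at this
        rw [this, neg_neg]
      have e3 : (Y.S'.th * Y.S'.T z) (Y.S'.Gl e Z (Y.j κ))
          = Y.S'.th (Y.S'.Gl e Z (Y.j (S.T z κ))) := by
        rw [Module.End.mul_apply, ← Y.j_T]
        have := congrArg (fun f : Module.End k XF => f (Y.j κ)) (Y.S'.T_GG e Z z)
        simp only [Module.End.mul_apply] at this
        rw [this]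
      rw [e1, e2, e3, Fx.Gl, Module.End.mul_apply, map_sub]
      abel

include A in
/-- `T_1 ⋯ T_r j κ` is a boundary of the extended differential up to `θ` times products of `r - 1`
slots times cycles -/
lemma TT_mod [CharZero k] {e p m : ℕ} (hd : d = e + 1) (Z : List σ) (hZ : Z ≠ []) {κ : F}
    (h : κ ∈ A.G (p + Z.length) (m + d)) (hz : S.del κ = 0)
    (hex : ∀ w ∈ A.G p (m + d), S.del w = 0 → w ∈ LinearMap.range S.del) :
    ∃ ζ : XF, ∃ ξ ∈ BB Y e (Z.length - 1) (A.G (p + 1) (m + e) ⊓ LinearMap.ker S.del),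
      Y.S'.Tl e Z (Y.j κ) = Y.S'.dx e ζ + Y.S'.th ξ := by
  have hr : 1 ≤ Z.length := List.length_pos_of_ne_nil hZ
  have h' : κ ∈ A.G (p + Z.length) (m + e + 1) := by
    rw [add_assoc, ← hd]
    exact h
  obtain ⟨ξ, hξ, -, he⟩ := TT_form A Y (e := e) Z h'
  -- the first part is a boundary
  have h1 := BB_ker Y Z.length (Gl_BB A Y (e := e) Z h) (Gl_del Y Z hz)
  obtain ⟨ζ, hζ, hζd⟩ := BB_bdry Y (W' := A.G (p + 1) m) (fun w hw => by
    rw [Submodule.mem_inf, LinearMap.mem_ker] at hw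
    obtain ⟨ω, hω⟩ := hex w hw.1 hw.2
    have h2 : S.del ω ∈ A.G p (m + d) := by rw [hω]; exact hw.1
    obtain ⟨ω', h3, h4⟩ := A.lift h2
    exact ⟨ω', h3, by rw [h4, hω]⟩) h1
  have h2 : PP Y.S' e ζ ∈ BB Y e (Z.length - 1) (A.G (p + 1) (m + e)) := by
    unfold PP
    rw [LinearMap.sum_apply]
    refine Submodule.sum_mem _ fun ν hν => ?_
    rw [Module.End.mul_apply]
    exact BB_op Y (Y.S'.m (monomial ν 1)) (S.m (monomial ν 1))
      (fun ν' => Y.S'.bm ν' _) (fun w => Y.j_m _ w)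
      (fun w hw => A.Gm (isHomogeneous_monomial (1 : k) (mem_Mo.mp hν)) hw) (BB_db Y ν hζ)
  have h3 : Y.S'.dx e ζ = Y.S'.Gl e Z (Y.j κ) - Y.S'.th (PP Y.S' e ζ) := by
    rw [dx_eq, LinearMap.sub_apply, hζd, Module.End.mul_apply]
  refine ⟨ζ, ξ + PP Y.S' e ζ, ?_, ?_⟩
  · refine BB_ker Y _ (add_mem hξ h2) ?_
    -- `dx (θ ξ') = 0`
    have h4 : Y.S'.dx e (Y.S'.Tl e Z (Y.j κ)) = 0 := by
      have := congrArg (fun f : Module.End k XF => f (Y.j κ)) (dx_TT Y.S' hd Z)
      simp only [Module.End.mul_apply, LinearMap.smul_apply] at this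
      rw [this, dx_j, hz, map_zero, map_zero, smul_zero]
    have h5 : Y.S'.dx e (Y.S'.dx e ζ) = 0 := by
      have := congrArg (fun f : Module.End k XF => f ζ) (dx_dx Y.S' e)
      simpa only [Module.End.mul_apply, LinearMap.zero_apply] using this
    have h6 : Y.S'.th (ξ + PP Y.S' e ζ) = Y.S'.Tl e Z (Y.j κ) - Y.S'.dx e ζ := by
      rw [he, h3, map_add]; abel
    have h7 : Y.S'.dx e (Y.S'.th (ξ + PP Y.S' e ζ)) = 0 := by
      rw [h6, map_sub, h4, h5, sub_zero]
    have h8 := congrArg (fun f : Module.End k XF => f (ξ + PP Y.S' e ζ)) (dx_th Y.S' e)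
    simp only [Module.End.mul_apply, LinearMap.neg_apply] at h8
    rw [h7] at h8
    refine th_inj Y ?_ (neg_eq_zero.mp h8.symm)
    have h9 := congrArg (fun f : Module.End k XF => f (ξ + PP Y.S' e ζ)) Y.S'.dth_del
    simp only [Module.End.mul_apply, LinearMap.neg_apply] at h9
    rw [h9, BB_dth Y (add_mem hξ h2), map_zero, neg_zero]
  · rw [he, h3, map_add]; abel

include A in
/-- **the Capelli type lemma with `r` letters** -/
theorem capelliX [CharZero k] {e p m : ℕ} (hd : d = e + 1) {W : Submodule k F}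
    (hW : ∀ x y : σ, ∀ w ∈ W, S.D (X x) y w ∈ W) (Z : List σ) (hZ0 : Z ≠ []) {κ : F}
    (h : κ ∈ A.G (p + Z.length) (m + d)) (hz : S.del κ = 0) {w : σ → ℕ}
    (hw : ∀ x, S.D (X x) x κ = (w x : k) • κ) (hZ : Z.Nodup)
    (hp : Z.Pairwise fun x y => S.D (X x) y κ ∈ W) (hne : ∀ z ∈ Z, w z ≠ 0)
    (hex : ∀ w ∈ A.G p (m + d), S.del w = 0 → w ∈ LinearMap.range S.del) :
    ∃ v ∈ W, ∃ ξ ∈ BB Y e (Z.length - 1) (A.G (p + 1) (m + e) ⊓ LinearMap.ker S.del),
      κ - v - Y.pr (Y.S'.Rl e Z (Y.S'.th ξ)) ∈ LinearMap.range S.del := by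
  have h1 := RR_TT Y hd hW hw Z hZ hp
  obtain ⟨ζ, ξ, hξ, he⟩ := TT_mod A Y hd Z hZ0 h hz hex
  have h2 : Y.S'.Rl e Z (Y.S'.Tl e Z (Y.j κ)) = Fk.sg k Z.length • Y.S'.dx e (Y.S'.Rl e Z ζ)
      + Y.S'.Rl e Z (Y.S'.th ξ) := by
    rw [he, map_add]
    congr 1
    have := congrArg (fun f : Module.End k XF => f ζ) (Y.S'.RR_dx hd Z)
    simpa only [Module.End.mul_apply, LinearMap.smul_apply] using this
  have h3 : Wr Y e W 0 ≤ W.comap Y.pr := by
    unfold Wr
    rw [Submodule.span_le]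
    rintro ξ ⟨Z, hZ, w, hw, rfl⟩
    have : Z = [] := List.length_eq_zero_iff.mp hZ
    subst this
    show Y.pr (Y.S'.Tl e [] (Y.j w)) ∈ W
    rw [Fx.Tl, Module.End.one_apply, Y.pr_j]
    exact hw
  have h4 : Y.pr (Y.S'.Rl e Z (Y.S'.Tl e Z (Y.j κ)) - (cpr w Z : k) • Y.j κ) ∈ W := h3 h1
  rw [h2, map_sub, map_add, map_smul, map_smul, pr_dx, Y.pr_j] at h4
  have hc : (cpr w Z : k) ≠ 0 := Nat.cast_ne_zero.mpr (cpr_ne w Z hne)
  set c : k := (cpr w Z : k) with hcdef
  set v0 := Fk.sg k Z.length • S.del (Y.pr (Y.S'.Rl e Z ζ)) + Y.pr (Y.S'.Rl e Z (Y.S'.th ξ))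
    - c • κ with hv0
  refine ⟨-(c⁻¹ • v0), neg_mem (W.smul_mem _ h4), c⁻¹ • ξ, Submodule.smul_mem _ _ hξ, ?_⟩
  refine ⟨c⁻¹ • Fk.sg k Z.length • Y.pr (Y.S'.Rl e Z ζ), ?_⟩
  rw [hv0, map_smul, map_smul, map_smul, map_smul, map_smul, smul_sub, smul_add, smul_smul c⁻¹ c κ,
    inv_mul_cancel₀ hc, one_smul]
  abel

include A Y in
/-- the case where the homology at bidegree `(p + 1, m + e)` vanishes as well -/
theorem capelli4 [CharZero k] {e p m : ℕ} (hd : d = e + 1) {W : Submodule k F}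
    (hW : ∀ x y : σ, ∀ w ∈ W, S.D (X x) y w ∈ W) (Z : List σ) (hZ0 : Z ≠ []) {κ : F}
    (h : κ ∈ A.G (p + Z.length) (m + d)) (hz : S.del κ = 0) {w : σ → ℕ}
    (hw : ∀ x, S.D (X x) x κ = (w x : k) • κ) (hZ : Z.Nodup)
    (hp : Z.Pairwise fun x y => S.D (X x) y κ ∈ W) (hne : ∀ z ∈ Z, w z ≠ 0)
    (hex : ∀ w ∈ A.G p (m + d), S.del w = 0 → w ∈ LinearMap.range S.del)
    (hex' : ∀ w ∈ A.G (p + 1) (m + e), S.del w = 0 → w ∈ LinearMap.range S.del) :
    ∃ v ∈ W, κ - v ∈ LinearMap.range S.del := by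
  obtain ⟨v, hv, ξ, hξ, hr⟩ := capelliX A Y hd hW Z hZ0 h hz hw hZ hp hne hex
  refine ⟨v, hv, ?_⟩
  obtain ⟨ζ, -, rfl⟩ := BB_bdry Y (W' := ⊤) (fun w hw => by
    rw [Submodule.mem_inf, LinearMap.mem_ker] at hw
    obtain ⟨ω, hω⟩ := hex' w hw.1 hw.2
    exact ⟨ω, Submodule.mem_top, hω⟩) hξ
  have h1 : Y.pr (Y.S'.Rl e Z (Y.S'.th (Y.S'.del ζ))) ∈ LinearMap.range S.del := by
    have h2 := congrArg (fun f : Module.End k XF => f ζ) (dx_th Y.S' e)
    simp only [Module.End.mul_apply, LinearMap.neg_apply] at h2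
    have h3 := congrArg (fun f : Module.End k XF => f (Y.S'.th ζ)) (Y.S'.RR_dx hd Z)
    simp only [Module.End.mul_apply, LinearMap.smul_apply] at h3
    rw [h2, map_neg] at h3
    have h4 : Y.S'.Rl e Z (Y.S'.th (Y.S'.del ζ))
        = -(Fk.sg k Z.length • Y.S'.dx e (Y.S'.Rl e Z (Y.S'.th ζ))) := by
      rw [← h3, neg_neg]
    rw [h4, map_neg, map_smul, pr_dx]
    exact neg_mem (Submodule.smul_mem _ _ ⟨_, rfl⟩)
  have h5 := add_mem hr h1
  rwa [sub_add_cancel] at h5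

end

end Pool.Agent.H20.S3
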