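import Pool.Agent.H20.S3.Meas4
import Pool.Agent.H20.S2.Final2
import Pool.Agent.H34.GP.Base3

set_option autoImplicit false
set_option linter.unusedSectionVars false

/-!
# `p = 2 d + 1`

`exact_K3` : the homology at bidegree `(2 d + 1, K)`, `K ≥ 2 d`, vanishes if `d ≥ 4`.
-/

open MvPolynomial Function

namespace Pool.Agent.H20.S3

open Pool.Agent.H39.OP Pool.Agent.H27.OP Pool.Agent.H20.S2

variable {r N e : ℕ} (B : Bs (Fin r) ℂ N (e + 2))

/-- `H_a(K) = 0` for `K ≥ 2 d`, `a ≤ 2 d + 1`, if `a ≤ 2 d` or `d ≥ 4` -/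
theorem exact_K3 {a K : ℕ} (hK : 2 * (e + 2) ≤ K)
    (ha : a ≤ 2 * (e + 2) ∨ (2 ≤ e ∧ a ≤ 2 * (e + 2) + 1))
    {κ : Finset (Fin N) → MvPolynomial (Fin r) ℂ} (hκ : κ ∈ ZK B a K) :
    κ ∈ LinearMap.range (SK B).del := by
  rcases Nat.lt_or_ge (2 * K) (a + 2 * (e + 2)) with h | h
  · -- `a = 2 d + 1`, `K = 2 d`
    have ha' : a = 2 * (e + 2) + 1 := by omega
    have hK' : K = 2 * (e + 2) := by omega
    have he : 2 ≤ e := by omega
    subst ha' hK'
    have hκ' := Submodule.mem_inf.mp hκ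
    have e1 : 2 * (e + 2) + 1 = 2 * e + 1 + 4 := by omega
    have e2 : 2 * (e + 2) = e + 2 + (e + 2) := by omega
    have h1 := odd_letters (AK B) (XK B) (fun x : Fin r => (x : ℕ)) (fun _ _ h => h)
      (e := e + 1) (p := 2 * e + 1) (r := 4) (m := e + 2) rfl (by norm_num) ?_ ?_ ?_ κ ?_
      (LinearMap.mem_ker.mp hκ'.2)
    · exact h1
    · intro w hw hz
      refine exact_K2 B (a := 2 * e + 1) (K := e + 2 + (e + 2)) (by omega) (by omega) (by omega)
        (Submodule.mem_inf.mpr ⟨hw, LinearMap.mem_ker.mpr hz⟩)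
    · intro w hw hz
      refine exact_K2 B (a := 2 * e + 1 + 1) (K := e + 2 + (e + 1)) (by omega) (by omega)
        (by omega) (Submodule.mem_inf.mpr ⟨hw, LinearMap.mem_ker.mpr hz⟩)
    · intro w hw hz wt hwt h3
      refine Pool.Agent.H34.GP.cycle3 (e := e + 1) (a := 2 * e + 1 + 4) (K := e + 2 + (e + 2)) B
        (Or.inl ⟨by omega, by omega⟩) hw hz hwt ?_
      have h4 : (Finset.univ.filter fun x => wt x ≠ 0).card < 4 := by
        convert h3
      omega
    · rw [← e1, ← e2]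
      exact hκ'.1
  · rcases Nat.lt_or_ge K a with h' | h'
    · omega
    · exact exact_K2 B (a := a) (K := K) h' (by omega) (by omega) hκ

/-- **Main theorem.** -/
theorem koszul_exact_two_plus (n d p : ℕ) (hd : 1 ≤ d)
    (hp : p ≤ 2 * d ∨ (4 ≤ d ∧ p ≤ 2 * d + 1))
    (N : ℕ) (φ : Fin N → MvPolynomial (Fin (n + 1)) ℂ)
    (hφ : ∀ i, φ i ∈ homogeneousSubmodule (Fin (n + 1)) ℂ d)
    (hli : LinearIndependent ℂ φ)
    (hsp : Submodule.span ℂ (Set.range φ) = homogeneousSubmodule (Fin (n + 1)) ℂ d)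
    (i : ℕ) (hi : i ≤ p) (m : ℕ) (hm : 2 * d ≤ m)
    (f : Finset (Fin N) → MvPolynomial (Fin (n + 1)) ℂ)
    (hf : ∀ I, f I ∈ homogeneousSubmodule (Fin (n + 1)) ℂ m)
    (hf0 : ∀ I : Finset (Fin N), I.card ≠ i → f I = 0)
    (hz : ∀ J : Finset (Fin N), J.card + 1 = i →
      ∑ b ∈ Jᶜ, (-1 : MvPolynomial (Fin (n + 1)) ℂ) ^ (J.filter (fun c => c < b)).card
        * φ b * f (insert b J) = 0) :
    ∃ g : Finset (Fin N) → MvPolynomial (Fin (n + 1)) ℂ,
      (∀ I, g I ∈ homogeneousSubmodule (Fin (n + 1)) ℂ (m - d)) ∧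
      (∀ I : Finset (Fin N), I.card ≠ i + 1 → g I = 0) ∧
      ∀ I : Finset (Fin N), I.card = i →
        f I = ∑ b ∈ Iᶜ, (-1 : MvPolynomial (Fin (n + 1)) ℂ) ^ (I.filter (fun c => c < b)).card
          * φ b * g (insert b I) := by
  rcases Nat.lt_or_ge d 2 with hd2 | hd2
  · exact koszul_exact_two n d p hd (by omega) N φ hφ hli hsp i hi m hm f hf hf0 hz
  · obtain ⟨e, rfl⟩ : ∃ e, d = e + 2 := ⟨d - 2, by omega⟩
    obtain ⟨B, rfl⟩ := exists_Bs φ hφ hli hsp
    have hdel : ∀ (h : Finset (Fin N) → MvPolynomial (Fin (n + 1)) ℂ) (I : Finset (Fin N)),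
        (SK B).del h I
          = ∑ b ∈ Iᶜ, (-1 : MvPolynomial (Fin (n + 1)) ℂ) ^ (I.filter (fun c => c < b)).card
            * B.φ b * h (insert b I) := by
      intro h I
      have h1 : Iᶜ = Finset.univ.filter (fun b => ¬ b ∈ I) := by
        ext b; simp
      rw [SK_del, h1, Finset.sum_filter]
      refine Finset.sum_congr rfl fun b _ => ?_
      rw [aJ_apply]
      by_cases hb : b ∈ I
      · rw [if_pos hb, if_neg (not_not.mpr hb), mul_zero]
      · rw [if_neg hb, if_pos hb, sgn, smul_eq_C_mul, map_pow, map_neg, C_1]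
        ring
    have hfG : f ∈ GK (Fin (n + 1)) ℂ N i m := fun I =>
      ⟨(mem_homogeneousSubmodule _ _).mp (hf I), fun hI => hf0 I hI⟩
    have hfz : (SK B).del f = 0 := by
      funext J
      rw [hdel]
      by_cases hJ : J.card + 1 = i
      · exact hz J hJ
      · refine Finset.sum_eq_zero fun b hb => ?_
        rw [hf0 (insert b J) (by
          rw [Finset.card_insert_of_notMem (Finset.mem_compl.mp hb)]; exact hJ), mul_zero]
    have hfZ : f ∈ ZK B i m := Submodule.mem_inf.mpr ⟨hfG, LinearMap.mem_ker.mpr hfz⟩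
    obtain ⟨ω0, hω0⟩ := exact_K3 B (a := i) (K := m) (by omega) (by omega) hfZ
    have h1 : (SK B).del ω0 ∈ (AK B).G i (m - (e + 2) + (e + 2)) := by
      rw [hω0, Nat.sub_add_cancel (by omega)]
      exact hfG
    obtain ⟨ω, hω, hωd⟩ := (AK B).lift h1
    refine ⟨ω, fun I => (mem_homogeneousSubmodule _ _).mpr (hω I).1, fun I hI => (hω I).2 hI, ?_⟩
    intro I _
    rw [← hdel, hωd, hω0]

end Pool.Agent.H20.S3
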